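import Pool.Agent.W516.KU.Defs2
import Pool.Agent.H204R3.GP.FFT

set_option autoImplicit false
set_option linter.unusedSectionVars false

/-!
# KU, task GLF: the first fundamental theorem for the general linear Lie algebra
(from the coordinate version fftG of H204R3)
-/

namespace Pool.Agent.W372.KU
open Module Pool.Agent.H204R3.GP Pool.Agent.H204R3.SP

namespace GLF

section
variable {F W : Type} [Field F] [AddCommGroup W] [Module F W]
variable {κ κ' : Type} [Fintype κ] [DecidableEq κ] [Fintype κ'] [DecidableEq κ']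

/-- the form given by an equivalence -/
noncomputable def psi (E : κ ≃ κ') : MultilinearMap F (fun _ : κ => W)
      (MultilinearMap F (fun _ : κ' => Module.Dual F W) F) where
  toFun v := ((MultilinearMap.mkPiAlgebra F κ F).compLinearMap
    (fun j => Dual.eval F W (v j))).domDomCongr E
  map_update_add' := by
    intro _ v j x y
    ext w
    have := ((MultilinearMap.mkPiAlgebra F κ F).compLinearMap
      (fun j => w (E j))).map_update_add v j x y
    exact this
  map_update_smul' := by
    intro _ v j c x
    ext w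
    have := ((MultilinearMap.mkPiAlgebra F κ F).compLinearMap
      (fun j => w (E j))).map_update_smul v j c x
    exact this

theorem psi_apply (E : κ ≃ κ') (v : κ → W) (w : κ' → Module.Dual F W) :
    psi E v w = ∏ j, w (E j) (v j) := rfl

variable {ι : Type} [Fintype ι] [DecidableEq ι] (b : Basis ι F W)

/-- vectors -/
noncomputable def vL : ι ⊕ ι → W := Sum.elim b (fun _ => 0)

/-- covectors -/
noncomputable def vR : ι ⊕ ι → Module.Dual F W := Sum.elim (fun _ => 0) b.coord

/-- the side -/
def cls : ι ⊕ ι → Bool := Sum.elim (fun _ => false) (fun _ => true)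

/-- the signs -/
def jj : ι ⊕ ι → F := Sum.elim (fun _ => 1) (fun _ => -1)

/-- the type -/
def tt : κ ⊕ κ' → Bool := Sum.elim (fun _ => false) (fun _ => true)

/-- the coefficients -/
noncomputable def coef (φ : MultilinearMap F (fun _ : κ => W)
      (MultilinearMap F (fun _ : κ' => Module.Dual F W) F)) (I : κ ⊕ κ' → ι ⊕ ι) : F :=
  φ (fun j => vL b (I (Sum.inl j))) (fun l => vR b (I (Sum.inr l)))

variable {b}

theorem coef_type (φ : MultilinearMap F (fun _ : κ => W)
      (MultilinearMap F (fun _ : κ' => Module.Dual F W) F)) (I : κ ⊕ κ' → ι ⊕ ι)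
    (hI : coef b φ I ≠ 0) (k : κ ⊕ κ') : cls (I k) = tt k := by
  rcases k with j | l
  · by_contra h
    apply hI
    unfold coef
    rw [φ.map_coord_zero j]
    · rfl
    · generalize I (Sum.inl j) = r at h ⊢
      rcases r with r | r
      · exact absurd rfl h
      · rfl
  · by_contra h
    apply hI
    unfold coef
    rw [MultilinearMap.map_coord_zero _ l]
    generalize I (Sum.inr l) = r at h ⊢
    rcases r with r | r
    · rfl
    · exact absurd rfl h

/-- the elementary endomorphism -/
noncomputable def EE (b : Basis ι F W) (i j : ι) : Module.End F W := (b.coord j).smulRight (b i)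

theorem EE_vL (i j : ι) (r : ι ⊕ ι) : EE b i j (vL b r) = if r = Sum.inl j then b i else 0 := by
  rcases r with r | r
  · simp only [EE, vL, Sum.elim_inl, LinearMap.smulRight_apply, Basis.coord_apply,
      Basis.repr_self, Sum.inl.injEq]
    by_cases h : r = j
    · subst h
      simp
    · rw [Finsupp.single_eq_of_ne (Ne.symm h), if_neg h, zero_smul]
  · simp [vL]

theorem EE_vR (i j : ι) (r : ι ⊕ ι) :
    (vR b r) ∘ₗ (EE b i j) = if r = Sum.inr i then b.coord j else 0 := by
  rcases r with r | r
  · simp [vR]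
  · ext x
    simp only [EE, vR, Sum.elim_inr, LinearMap.comp_apply, LinearMap.smulRight_apply, map_smul,
      Basis.coord_apply, Basis.repr_self, Sum.inr.injEq, smul_eq_mul]
    by_cases h : r = i
    · subst h
      simp
    · rw [Finsupp.single_eq_of_ne h, if_neg h]
      simp

theorem upL (I : κ ⊕ κ' → ι ⊕ ι) (a : κ) (r : ι ⊕ ι) :
    (fun j => vL b (Function.update I (Sum.inl a) r (Sum.inl j))) =
      Function.update (fun j => vL b (I (Sum.inl j))) a (vL b r) := by
  funext j
  by_cases h : j = a
  · subst h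
    simp
  · rw [Function.update_of_ne (by simpa using h), Function.update_of_ne h]

theorem upL' (I : κ ⊕ κ' → ι ⊕ ι) (a : κ) (r : ι ⊕ ι) :
    (fun l => vR b (Function.update I (Sum.inl a) r (Sum.inr l))) =
      (fun l => vR b (I (Sum.inr l))) := by
  funext l
  rw [Function.update_of_ne (by simp)]

theorem upR (I : κ ⊕ κ' → ι ⊕ ι) (a : κ') (r : ι ⊕ ι) :
    (fun j => vR b (Function.update I (Sum.inr a) r (Sum.inr j))) =
      Function.update (fun j => vR b (I (Sum.inr j))) a (vR b r) := by
  funext j
  by_cases h : j = a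
  · subst h
    simp
  · rw [Function.update_of_ne (by simpa using h), Function.update_of_ne h]

theorem upR' (I : κ ⊕ κ' → ι ⊕ ι) (a : κ') (r : ι ⊕ ι) :
    (fun l => vL b (Function.update I (Sum.inr a) r (Sum.inl l))) =
      (fun l => vL b (I (Sum.inl l))) := by
  funext l
  rw [Function.update_of_ne (by simp)]

theorem JJl (i : ι) (r : ι ⊕ ι) :
    JJ Sum.swap (jj (F := F)) (Sum.inl i) r = if r = Sum.inr i then 1 else 0 := rfl

theorem JJr (i : ι) (r : ι ⊕ ι) :
    JJ Sum.swap (jj (F := F)) (Sum.inr i) r = if r = Sum.inl i then -1 else 0 := rfl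

theorem inv0 (φ : MultilinearMap F (fun _ : κ => W)
      (MultilinearMap F (fun _ : κ' => Module.Dual F W) F))
    (h : ∀ (x : Module.End F W) (v : κ → W) (w : κ' → Module.Dual F W),
      ∑ j, φ (Function.update v j (x (v j))) w - ∑ l, φ v (Function.update w l ((w l) ∘ₗ x)) = 0)
    (i j : ι) (I : κ ⊕ κ' → ι ⊕ ι) :
    ∑ k, (JJ Sum.swap (jj (F := F)) (Sum.inl i) (I k) *
        coef b φ (Function.update I k (Sum.inr j)) +
      JJ Sum.swap (jj (F := F)) (Sum.inr j) (I k) *
        coef b φ (Function.update I k (Sum.inl i))) = 0 := by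
  have h1 := h (EE b i j) (fun a => vL b (I (Sum.inl a))) (fun l => vR b (I (Sum.inr l)))
  rw [Fintype.sum_sum_type]
  have e1 : ∀ a : κ, (JJ Sum.swap (jj (F := F)) (Sum.inl i) (I (Sum.inl a)) *
        coef b φ (Function.update I (Sum.inl a) (Sum.inr j)) +
      JJ Sum.swap (jj (F := F)) (Sum.inr j) (I (Sum.inl a)) *
        coef b φ (Function.update I (Sum.inl a) (Sum.inl i))) =
      -φ (Function.update (fun a => vL b (I (Sum.inl a))) a (EE b i j (vL b (I (Sum.inl a)))))
        (fun l => vR b (I (Sum.inr l))) := by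
    intro a
    have e2 : coef b φ (Function.update I (Sum.inl a) (Sum.inr j)) = 0 := by
      by_contra hc
      have := coef_type φ _ hc (Sum.inl a)
      simp [cls, tt] at this
    have e3 : coef b φ (Function.update I (Sum.inl a) (Sum.inl i)) =
        φ (Function.update (fun a => vL b (I (Sum.inl a))) a (b i))
        (fun l => vR b (I (Sum.inr l))) := by
      unfold coef
      rw [upL, upL']
      rfl
    rw [e2, mul_zero, zero_add, EE_vL, JJr]
    by_cases hI : I (Sum.inl a) = Sum.inl j
    · rw [if_pos hI, if_pos hI, e3]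
      ring
    · rw [if_neg hI, if_neg hI, zero_mul, MultilinearMap.map_update_zero]
      simp
  have e1' : ∀ a : κ', (JJ Sum.swap (jj (F := F)) (Sum.inl i) (I (Sum.inr a)) *
        coef b φ (Function.update I (Sum.inr a) (Sum.inr j)) +
      JJ Sum.swap (jj (F := F)) (Sum.inr j) (I (Sum.inr a)) *
        coef b φ (Function.update I (Sum.inr a) (Sum.inl i))) =
      φ (fun a => vL b (I (Sum.inl a)))
        (Function.update (fun l => vR b (I (Sum.inr l))) a ((vR b (I (Sum.inr a))) ∘ₗ EE b i j))
        := by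
    intro a
    have e2 : coef b φ (Function.update I (Sum.inr a) (Sum.inl i)) = 0 := by
      by_contra hc
      have := coef_type φ _ hc (Sum.inr a)
      simp [cls, tt] at this
    have e3 : coef b φ (Function.update I (Sum.inr a) (Sum.inr j)) =
        φ (fun a => vL b (I (Sum.inl a)))
        (Function.update (fun l => vR b (I (Sum.inr l))) a (b.coord j)) := by
      unfold coef
      rw [upR, upR']
      rfl
    rw [e2, mul_zero, add_zero, EE_vR, JJl]
    by_cases hI : I (Sum.inr a) = Sum.inr i
    · rw [if_pos hI, if_pos hI, e3]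
      ring
    · rw [if_neg hI, if_neg hI, zero_mul, MultilinearMap.map_update_zero]
  rw [Finset.sum_congr rfl fun a _ => e1 a, Finset.sum_congr rfl fun a _ => e1' a,
    Finset.sum_neg_distrib]
  linear_combination -h1

theorem mem_inv (φ : MultilinearMap F (fun _ : κ => W)
      (MultilinearMap F (fun _ : κ' => Module.Dual F W) F))
    (h : ∀ (x : Module.End F W) (v : κ → W) (w : κ' → Module.Dual F W),
      ∑ j, φ (Function.update v j (x (v j))) w - ∑ l, φ v (Function.update w l ((w l) ∘ₗ x)) = 0) :
    coef b φ ∈ InvG (cls : ι ⊕ ι → Bool) Sum.swap (jj (F := F)) (κ ⊕ κ') tt := by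
  refine ⟨?_, fun I hI k => coef_type φ I hI k⟩
  rintro (i | i) (j | j) hbc I
  · simp [cls] at hbc
  · exact inv0 φ h i j I
  · rw [← inv0 φ h j i I]
    exact Finset.sum_congr rfl fun k _ => add_comm _ _
  · simp [cls] at hbc

/-- the index with given components -/
def II (A : κ → ι) (B : κ' → ι) : κ ⊕ κ' → ι ⊕ ι := Sum.map A B

theorem mat_case (m : ℕ) (hm : Fintype.card κ = m) (hm' : Fintype.card κ' = m)
    (e : Fin m × Fin 2 ≃ κ ⊕ κ') (c : Fin m → Bool) (b : Basis ι F W) :
    ∃ ψ ∈ Submodule.span F {ψ : MultilinearMap F (fun _ : κ => W)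
      (MultilinearMap F (fun _ : κ' => Module.Dual F W) F) |
        ∃ e : κ ≃ κ', ∀ v w, ψ v w = ∏ j, w (e j) (v j)},
      ∀ (A : κ → ι) (B : κ' → ι), ψ (fun j => b (A j)) (fun l => b.coord (B l)) =
        matG (cls : ι ⊕ ι → Bool) Sum.swap (jj (F := F)) e c (II A B) := by
  by_cases hs : ∃ s, (tt (e (s, 0)) = tt (e (s, 1)) ∨ tt (e (s, 0)) ≠ c s)
  · obtain ⟨s, hs⟩ := hs
    refine ⟨0, Submodule.zero_mem _, ?_⟩
    intro A B
    symm
    refine (Finset.prod_eq_zero (Finset.mem_univ s) ?_).trans (by simp)
    have h2 : ∀ k : κ ⊕ κ', cls (II A B k) = tt k := by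
      rintro (k | k) <;> rfl
    rcases hs with hs | hs
    · have h3 : JJ Sum.swap (jj (F := F)) (II A B (e (s, 0))) (II A B (e (s, 1))) = 0 := by
        unfold JJ
        rw [if_neg]
        intro h4
        have h5 := h2 (e (s, 1))
        rw [h4, ← hs, ← h2 (e (s, 0))] at h5
        generalize II A B (e (s, 0)) = r at h5
        rcases r with r | r <;> simp [cls] at h5
      rw [h3, ite_self]
    · rw [if_neg]
      rw [h2]
      exact hs
  · push Not at hs
    have h1 : ∀ s, ∃ (i : Fin 2) (a : κ) (l : κ'), e (s, i) = Sum.inl a ∧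
        e (s, 1 - i) = Sum.inr l := by
      intro s
      have h2 := (hs s).1
      rcases h3 : e (s, 0) with a | l
      · rcases h4 : e (s, 1) with a' | l
        · rw [h3, h4] at h2
          exact absurd rfl h2
        · exact ⟨0, a, l, h3, h4⟩
      · rcases h4 : e (s, 1) with a | l'
        · exact ⟨1, a, l, h4, h3⟩
        · rw [h3, h4] at h2
          exact absurd rfl h2
    choose i a l ha hl using h1
    have hai : Function.Injective a := by
      intro s s' h
      have h2 : e (s, i s) = e (s', i s') := by rw [ha, ha, h]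
      exact congrArg Prod.fst (e.injective h2)
    have hli : Function.Injective l := by
      intro s s' h
      have h2 : e (s, 1 - i s) = e (s', 1 - i s') := by rw [hl, hl, h]
      exact congrArg Prod.fst (e.injective h2)
    have hab : Function.Bijective a :=
      (Fintype.bijective_iff_injective_and_card a).2 ⟨hai, by simp [hm]⟩
    have hlb : Function.Bijective l :=
      (Fintype.bijective_iff_injective_and_card l).2 ⟨hli, by simp [hm']⟩
    obtain ⟨ea, hea⟩ : ∃ ea : Fin m ≃ κ, ∀ s, ea s = a s := ⟨Equiv.ofBijective a hab, fun _ => rfl⟩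
    obtain ⟨el, hel⟩ : ∃ el : Fin m ≃ κ', ∀ s, el s = l s :=
      ⟨Equiv.ofBijective l hlb, fun _ => rfl⟩
    refine ⟨(∏ s, if i s = 0 then (1 : F) else -1) • psi (ea.symm.trans el),
      Submodule.smul_mem _ _ (Submodule.subset_span ⟨ea.symm.trans el, fun v w => rfl⟩), ?_⟩
    intro A B
    rw [smul_apply, smul_apply, psi_apply, smul_eq_mul]
    have h3 : ∏ j, (b.coord (B ((ea.symm.trans el) j))) (b (A j)) =
        ∏ s, (if B (l s) = A (a s) then (1 : F) else 0) := by
      rw [← ea.prod_comp]
      refine Finset.prod_congr rfl fun s _ => ?_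
      rw [Equiv.trans_apply, Equiv.symm_apply_apply, hel, hea, Basis.coord_apply,
        Basis.repr_self, Finsupp.single_apply]
      by_cases h : A (a s) = B (l s)
      · rw [if_pos h, if_pos h.symm]
      · rw [if_neg h, if_neg (Ne.symm h)]
    rw [h3, ← Finset.prod_mul_distrib]
    unfold matG
    refine Finset.prod_congr rfl fun s _ => ?_
    have h4 : cls (II A B (e (s, 0))) = c s := by
      rw [← (hs s).2]
      rcases e (s, 0) with k | k <;> rfl
    rw [if_pos h4]
    have h5 := ha s
    have h6 := hl s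
    rcases Fin.exists_fin_two.1 ⟨i s, rfl⟩ with h | h
    · rw [h] at h5 h6
      rw [h, if_pos rfl, one_mul]
      have h7 : (1 : Fin 2) - 0 = 1 := rfl
      rw [h7] at h6
      rw [h5, h6]
      simp [II, JJ, jj]
    · rw [h] at h5 h6
      rw [h, if_neg (by decide)]
      have h7 : (1 : Fin 2) - 1 = 0 := rfl
      rw [h7] at h6
      rw [h5, h6]
      simp only [II, JJ, jj, Sum.map_inr, Sum.map_inl, Sum.swap_inr, Sum.inl.injEq, Sum.elim_inr]
      by_cases h8 : A (a s) = B (l s)
      · rw [if_pos h8, if_pos h8.symm, mul_one]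
      · rw [if_neg h8, if_neg (Ne.symm h8), mul_zero]

end

end GLF

open GLF in
theorem T_GLF : Pool.Agent.W516.KU.S_GLF := by
  intro F W _ _ _ _ _ κ κ' _ _ _ _ φ h
  by_cases hφ : φ = 0
  · rw [hφ]
    exact Submodule.zero_mem _
  have hcard : Fintype.card κ = Fintype.card κ' := by
    by_contra hne
    apply hφ
    ext v w
    have h1 := h 1 v w
    have e1 : ∀ j, φ (Function.update v j ((1 : Module.End F W) (v j))) w = φ v w := by
      intro j
      rw [Module.End.one_apply, Function.update_eq_self]
    have e2 : ∀ l, φ v (Function.update w l ((w l) ∘ₗ (1 : Module.End F W))) = φ v w := by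
      intro l
      rw [Module.End.one_eq_id, LinearMap.comp_id, Function.update_eq_self]
    rw [Finset.sum_congr rfl fun j _ => e1 j, Finset.sum_congr rfl fun l _ => e2 l,
      Finset.sum_const, Finset.sum_const, Finset.card_univ, Finset.card_univ, nsmul_eq_mul,
      nsmul_eq_mul, ← sub_mul] at h1
    rcases mul_eq_zero.1 h1 with h2 | h2
    · exact absurd (by exact_mod_cast sub_eq_zero.1 h2) hne
    · rw [h2]
      rfl
  obtain ⟨m, hm⟩ : ∃ m, Fintype.card κ = m := ⟨_, rfl⟩
  let b := Module.finBasis F W
  have h1 : coef b φ ∈ MatG (cls : _ → Bool) Sum.swap (jj (F := F)) (κ ⊕ κ') m := by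
    refine fftG (by simp) ?_ ?_ ?_ m (κ ⊕ κ') (by rw [Fintype.card_sum, ← hcard, hm]; ring) tt
      (mem_inv φ h)
    · rintro (x | x) <;> simp [jj]
    · rintro (x | x) <;> simp [jj]
    · rintro (x | x) (y | y) hxy <;> simp [cls] at hxy ⊢
  have h2 : ∀ G ∈ MatG (cls : _ → Bool) Sum.swap (jj (F := F)) (κ ⊕ κ') m,
      ∃ ψ ∈ Submodule.span F {ψ : MultilinearMap F (fun _ : κ => W)
        (MultilinearMap F (fun _ : κ' => Module.Dual F W) F) |
          ∃ e : κ ≃ κ', ∀ v w, ψ v w = ∏ j, w (e j) (v j)},
        ∀ (A : κ → Fin (finrank F W)) (B : κ' → Fin (finrank F W)),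
          ψ (fun j => b (A j)) (fun l => b.coord (B l)) = G (II A B) := by
    intro G hG
    induction hG using Submodule.span_induction with
    | mem G hG =>
      obtain ⟨e, c, rfl⟩ := hG
      exact mat_case m hm (by rw [← hcard, hm]) e c b
    | zero => exact ⟨0, Submodule.zero_mem _, fun A B => rfl⟩
    | add x y _ _ hx hy =>
      obtain ⟨ψ1, h1, h2⟩ := hx
      obtain ⟨ψ2, h3, h4⟩ := hy
      refine ⟨ψ1 + ψ2, Submodule.add_mem _ h1 h3, fun A B => ?_⟩
      rw [add_apply, add_apply, h2, h4]
      rfl
    | smul c x _ hx =>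
      obtain ⟨ψ1, h1, h2⟩ := hx
      refine ⟨c • ψ1, Submodule.smul_mem _ _ h1, fun A B => ?_⟩
      rw [smul_apply, smul_apply, h2]
      rfl
  obtain ⟨ψ, hψ, hc⟩ := h2 _ h1
  have h3 : φ = ψ := by
    refine Basis.ext_multilinear (fun _ => b) fun A => ?_
    refine Basis.ext_multilinear (fun _ => b.dualBasis) fun B => ?_
    have e1 : (fun l => b.dualBasis (B l)) = fun l => b.coord (B l) := by
      funext l
      rw [Basis.coe_dualBasis]
    rw [e1, hc]
    rfl
  rw [h3]
  exact hψ

end Pool.Agent.W372.KU
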